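import Pool.Agent.H590.PL.Stm

/-!
DINI: minimum principle.
-/

set_option autoImplicit false

noncomputable section

open MeasureTheory Filter Topology Set

namespace H264PL

theorem DINI : H590PL.S_DINI := by
  intro X _ K p0 p1 J hK hp hJ hD c hc w hw
  -- extend `J` to a continuous function on `ℝ × K`
  set f : ℝ → K → ℝ := fun p v => J (projIcc p0 p1 hp.le p) v with hf
  have hfc : Continuous (Function.uncurry f) := by
    have h1 : Continuous (fun q : ℝ × K => (((projIcc p0 p1 hp.le q.1 : Icc p0 p1) : ℝ), (q.2 : X))) :=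
      (continuous_subtype_val.comp (continuous_projIcc.comp continuous_fst)).prodMk
        (continuous_subtype_val.comp continuous_snd)
    exact hJ.comp_continuous h1 (fun q => ⟨(projIcc p0 p1 hp.le q.1).2, q.2.2⟩)
  have hfp : ∀ p ∈ Icc p0 p1, ∀ v : K, f p v = J p v := by
    intro p hpp v
    simp only [hf]
    rw [projIcc_of_mem hp.le hpp]
  have : CompactSpace K := isCompact_iff_compactSpace.1 hK
  have : Nonempty K := ⟨⟨w, hw⟩⟩
  set M : ℝ → ℝ := fun p => sInf (f p '' univ) with hM
  have hMc : Continuous M := isCompact_univ.continuous_sInf hfc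
  have hfcp : ∀ p, Continuous (f p) := fun p => hfc.comp (Continuous.prodMk_right p)
  -- minimisers
  have hmin : ∀ p, ∃ v : K, f p v = M p ∧ ∀ u : K, f p v ≤ f p u := by
    intro p
    obtain ⟨v, -, hv⟩ := isCompact_univ.exists_isMinOn (univ_nonempty (α := K)) (hfcp p).continuousOn
    refine ⟨v, ?_, fun u => hv (mem_univ u)⟩
    apply le_antisymm
    · apply le_csInf
      · exact ⟨_, v, mem_univ _, rfl⟩
      · rintro _ ⟨u, -, rfl⟩
        exact hv (mem_univ u)
    · apply csInf_le
      · refine ⟨f p v, ?_⟩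
        rintro _ ⟨u, -, rfl⟩
        exact hv (mem_univ u)
      · exact ⟨v, mem_univ _, rfl⟩
  have hle : ∀ p, ∀ u : K, M p ≤ f p u := by
    intro p u
    obtain ⟨v, hv, hv'⟩ := hmin p
    rw [← hv]
    exact hv' u
  -- the slopes
  have hslope : ∀ x ∈ Ico p0 p1, ∀ r : ℝ, 0 < r → ∃ᶠ z in 𝓝[>] x, slope M x z < r := by
    intro x hx r hr
    obtain ⟨v, hv, hv'⟩ := hmin x
    have hxI : x ∈ Icc p0 p1 := Ico_subset_Icc_self hx
    obtain ⟨D, hD0, hder⟩ := hD x hx v v.2 (by
      intro u hu
      have := hv' ⟨u, hu⟩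
      rwa [hfp x hxI, hfp x hxI] at this)
    have h1 : Tendsto (slope (fun q => J q v) x) (𝓝[>] x) (𝓝 D) := by
      have := hder.Ioi_of_Ici
      rwa [hasDerivWithinAt_iff_tendsto_slope' (by simp)] at this
    have h2 : ∀ᶠ z in 𝓝[>] x, slope (fun q => J q v) x z < r :=
      h1.eventually_lt_const (lt_of_le_of_lt hD0 hr)
    have h3 : ∀ᶠ z in 𝓝[>] x, z ∈ Ioo x p1 := Ioo_mem_nhdsGT hx.2
    apply Filter.Eventually.frequently
    filter_upwards [h2, h3] with z hz hz'
    refine lt_of_le_of_lt ?_ hz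
    have hzI : z ∈ Icc p0 p1 := ⟨hx.1.trans hz'.1.le, hz'.2.le⟩
    rw [slope_def_field, slope_def_field]
    apply div_le_div_of_nonneg_right _ (sub_nonneg.2 hz'.1.le)
    have e1 := hle z v
    rw [hfp z hzI] at e1
    rw [hfp x hxI] at hv
    rw [← hv]
    linarith
  have hend : ∀ e : ℝ, 0 < e → M p1 ≤ M p0 + e * (p1 - p0) := by
    intro e he
    have := image_le_of_liminf_slope_right_lt_deriv_boundary (f := M) (f' := fun _ => 0)
      (a := p0) (b := p1) hMc.continuousOn (fun x hx r hr => hslope x hx r hr)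
      (B := fun x => M p0 + e * (x - p0)) (B' := fun _ => e) (by simp)
      (fun x => by
        have h1 : HasDerivAt (fun x : ℝ => x - p0) 1 x := (hasDerivAt_id x).sub_const p0
        have h2 := (h1.const_mul e).const_add (M p0)
        simpa using h2)
      (fun x _ _ => he) (right_mem_Icc.2 hp.le)
    exact this
  have hmono : M p1 ≤ M p0 := by
    apply le_of_forall_pos_le_add
    intro e he
    have hpos : 0 < p1 - p0 := sub_pos.2 hp
    have := hend (e / (p1 - p0)) (div_pos he hpos)
    rwa [div_mul_cancel₀ _ hpos.ne'] at this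
  obtain ⟨v1, hv1, -⟩ := hmin p1
  rw [hfp p1 (right_mem_Icc.2 hp.le)] at hv1
  have h0 := hle p0 ⟨w, hw⟩
  rw [hfp p0 (left_mem_Icc.2 hp.le)] at h0
  have h1 := hc v1 v1.2
  rw [hv1] at h1
  exact h1.trans (hmono.trans h0)

end H264PL
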